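import Mathlib

/-!
# Divisibility by powers of `2` in the ring of the rational numbers with odd denominator
-/

set_option autoImplicit false

namespace Pool.Agent.L0h40.MS

open Finset

/-- `q` is divisible by `2 ^ M` in the ring of the rational numbers with odd denominator. -/
def Dv (M : ℕ) (q : ℚ) : Prop := ∃ d n : ℤ, Odd d ∧ (d : ℚ) * q = 2 ^ M * n

lemma Dv.add {M : ℕ} {a b : ℚ} (ha : Dv M a) (hb : Dv M b) : Dv M (a + b) := by
  obtain ⟨d, n, hd, h1⟩ := ha
  obtain ⟨d', n', hd', h2⟩ := hb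
  refine ⟨d * d', n * d' + n' * d, hd.mul hd', ?_⟩
  push_cast
  linear_combination (d' : ℚ) * h1 + (d : ℚ) * h2

lemma Dv.neg {M : ℕ} {a : ℚ} (ha : Dv M a) : Dv M (-a) := by
  obtain ⟨d, n, hd, h1⟩ := ha
  refine ⟨d, -n, hd, ?_⟩
  push_cast
  linear_combination -h1

lemma Dv.sub {M : ℕ} {a b : ℚ} (ha : Dv M a) (hb : Dv M b) : Dv M (a - b) := by
  rw [sub_eq_add_neg]
  exact ha.add hb.neg

lemma Dv.zero (M : ℕ) : Dv M 0 := ⟨1, 0, odd_one, by simp⟩

lemma Dv.sum {M : ℕ} {ι : Type*} (s : Finset ι) (f : ι → ℚ) (h : ∀ i ∈ s, Dv M (f i)) :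
    Dv M (∑ i ∈ s, f i) := by
  classical
  induction s using Finset.induction_on with
  | empty => simpa using Dv.zero M
  | insert a s ha ih =>
    rw [Finset.sum_insert ha]
    exact (h a (Finset.mem_insert_self _ _)).add (ih fun i hi => h i (Finset.mem_insert_of_mem hi))

lemma Dv.mul {M M' : ℕ} {a b : ℚ} (ha : Dv M a) (hb : Dv M' b) : Dv (M + M') (a * b) := by
  obtain ⟨d, n, hd, h1⟩ := ha
  obtain ⟨d', n', hd', h2⟩ := hb
  refine ⟨d * d', n * n', hd.mul hd', ?_⟩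
  push_cast
  rw [pow_add]
  calc (d : ℚ) * d' * (a * b) = (d * a) * (d' * b) := by ring
    _ = _ := by rw [h1, h2]; ring

lemma Dv.mono {M M' : ℕ} {a : ℚ} (ha : Dv M a) (h : M' ≤ M) : Dv M' a := by
  obtain ⟨d, n, hd, h1⟩ := ha
  refine ⟨d, 2 ^ (M - M') * n, hd, ?_⟩
  rw [h1]
  push_cast
  rw [← mul_assoc, ← pow_add, Nat.add_sub_cancel' h]

lemma Dv.of_int {M : ℕ} {a : ℤ} (h : (2 : ℤ) ^ M ∣ a) : Dv M (a : ℚ) := by
  obtain ⟨c, rfl⟩ := h
  exact ⟨1, c, odd_one, by push_cast; ring⟩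

lemma Dv.int (a : ℤ) : Dv 0 (a : ℚ) := Dv.of_int (by simp)

lemma Dv.int_mul {M : ℕ} {a : ℚ} (c : ℤ) (ha : Dv M a) : Dv M (c * a) := by
  simpa using (Dv.int c).mul ha

lemma Dv.to_int {M : ℕ} {a : ℤ} (h : Dv M (a : ℚ)) : (2 : ℤ) ^ M ∣ a := by
  obtain ⟨d, n, hd, h1⟩ := h
  have h2 : d * a = 2 ^ M * n := by exact_mod_cast h1
  have h3 : IsCoprime ((2 : ℤ) ^ M) d := by
    apply IsCoprime.pow_left
    rw [Int.isCoprime_iff_gcd_eq_one]
    rcases hd with ⟨c, rfl⟩
    have : Int.gcd 2 (2 * c + 1) = Int.gcd 2 1 := by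
      rw [add_comm]
      simp
    rw [this]
    rfl
  exact h3.dvd_of_dvd_mul_left (Dvd.intro _ h2.symm)

lemma Dv.pow_div {a l M : ℕ} (hl : l ≠ 0) (h : M + padicValNat 2 l ≤ a) :
    Dv M ((2 : ℚ) ^ a / l) := by
  obtain ⟨o, ho⟩ : 2 ^ padicValNat 2 l ∣ l := pow_padicValNat_dvd
  have hodd : Odd o := by
    by_contra hne
    rw [Nat.not_odd_iff_even] at hne
    obtain ⟨r, hr⟩ := hne
    apply pow_succ_padicValNat_not_dvd (p := 2) hl
    refine ⟨r, ?_⟩
    conv_lhs => rw [ho, hr]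
    ring
  refine ⟨(o : ℤ), 2 ^ (a - (M + padicValNat 2 l)), by exact_mod_cast hodd, ?_⟩
  have hl0 : (l : ℚ) ≠ 0 := by exact_mod_cast hl
  have ho' : (l : ℚ) = 2 ^ padicValNat 2 l * o := by exact_mod_cast ho
  have hp : (2 : ℚ) ^ a = 2 ^ M * 2 ^ padicValNat 2 l * 2 ^ (a - (M + padicValNat 2 l)) := by
    rw [← pow_add, ← pow_add, Nat.add_sub_cancel' h]
  push_cast
  rw [mul_div_assoc', div_eq_iff hl0, hp, ho']
  ring

lemma val_le_self (l : ℕ) (hl : l ≠ 0) : 2 ^ padicValNat 2 l ≤ l :=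
  Nat.le_of_dvd (Nat.pos_of_ne_zero hl) pow_padicValNat_dvd

/-- An alternating sum. -/
lemma alt_sum (H : ℕ) (x T : ℤ) (e : ℕ → ℤ) (he : ∀ i, e (i + H) = -e i) (b : ℕ) :
    ∑ i ∈ range (H * (2 * b)), (x + i * T) * e i = -(b * H * T) * ∑ i ∈ range H, e i := by
  have hper : ∀ (b i : ℕ), e (H * (2 * b) + i) = e i := by
    intro b
    induction b with
    | zero => intro i; simp
    | succ b ih =>
      intro i
      have : H * (2 * (b + 1)) + i = (H * (2 * b) + i) + H + H := by ring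
      rw [this, he, he, ih, neg_neg]
  induction b with
  | zero => simp
  | succ b ih =>
    have h1 : H * (2 * (b + 1)) = H * (2 * b) + (H + H) := by ring
    rw [h1, Finset.sum_range_add, ih, Finset.sum_range_add]
    have h2 : ∀ i, e (H * (2 * b) + (H + i)) = -e i := by
      intro i
      rw [hper, add_comm H i, he]
    simp only [h2, hper]
    rw [← Finset.sum_add_distrib]
    have h3 : ∀ i ∈ range H, (x + ((H * (2 * b) + i : ℕ) : ℤ) * T) * e i +
        (x + ((H * (2 * b) + (H + i) : ℕ) : ℤ) * T) * -e i = -(H * T) * e i := by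
      intro i _
      push_cast
      ring
    rw [Finset.sum_congr rfl h3, ← Finset.mul_sum]
    push_cast
    ring

/-- The product over the cosets of the roots of unity. -/
lemma prod_eta {K : Type*} [CommRing K] (n : ℕ) : ∀ (x η : K), η ^ (2 ^ n) = -1 →
    ∏ i ∈ range (2 ^ (n + 1)), (x * η ^ i - 1) = 1 - x ^ (2 ^ (n + 1)) := by
  induction n with
  | zero =>
    intro x η h
    have h' : η = -1 := by simpa using h
    subst h'
    rw [zero_add, pow_one, Finset.prod_range_succ, Finset.prod_range_succ, Finset.prod_range_zero]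
    ring
  | succ n ih =>
    intro x η h
    have h1 : 2 ^ (n + 1 + 1) = 2 ^ (n + 1) + 2 ^ (n + 1) := by ring
    rw [h1, Finset.prod_range_add, ← Finset.prod_mul_distrib]
    have h2 : ∀ i ∈ range (2 ^ (n + 1)), (x * η ^ i - 1) * (x * η ^ (2 ^ (n + 1) + i) - 1) =
        -1 * (x ^ 2 * (η ^ 2) ^ i - 1) := by
      intro i _
      rw [pow_add, h]
      ring
    rw [Finset.prod_congr rfl h2, Finset.prod_mul_distrib, Finset.prod_const, Finset.card_range,
      Even.neg_one_pow ((even_two).pow_of_ne_zero (Nat.succ_ne_zero n)), one_mul,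
      ih (x ^ 2) (η ^ 2) (by rw [← pow_mul, ← h]; congr 1; ring), ← pow_mul]
    congr 2
    ring

end Pool.Agent.L0h40.MS
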