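import Pool.Agent.L0h40.MS.Main

/-!
# Powers of `2 ^ s - 1`, `s` even, modulo a Fermat prime
-/

set_option autoImplicit false

namespace Pool.Agent.L0h40.MS

open Finset
open Pool.Agent.Results.MP_37e5fa_nt.MersenneIndex (sgn Ind)

lemma lt_pow (m : ℕ) (hm : 4 ≤ m) : 2 * m + 3 ≤ 2 ^ m := by
  induction m, hm using Nat.le_induction with
  | base => norm_num
  | succ m hm ih => rw [pow_succ]; omega

lemma two_pow (m : ℕ) : (2 : ZMod (Nat.fermatNumber m)) ^ (2 ^ m) = -1 := by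
  have h : ((Nat.fermatNumber m : ℕ) : ZMod (Nat.fermatNumber m)) = 0 := ZMod.natCast_self _
  rw [Nat.fermatNumber] at h
  push_cast at h
  exact eq_neg_of_add_eq_zero_left h

lemma two_pow' (m : ℕ) : (2 : ZMod (Nat.fermatNumber m)) ^ (2 ^ (m + 1)) = 1 := by
  rw [pow_succ, pow_mul, two_pow]; norm_num

lemma two_pow_congr {m a b : ℕ} (h : (2 : ℤ) ^ (m + 1) ∣ (a : ℤ) - b) :
    (2 : ZMod (Nat.fermatNumber m)) ^ a = 2 ^ b := by
  have h1 : a ≡ b [MOD 2 ^ (m + 1)] := by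
    have := (Int.modEq_iff_dvd (n := 2 ^ (m + 1)) (a := (b : ℤ)) (b := a)).mpr (by exact_mod_cast h)
    have h2 := this.symm
    exact (Int.natCast_modEq_iff).mp (by exact_mod_cast h2)
  have key : ∀ c : ℕ, (2 : ZMod (Nat.fermatNumber m)) ^ c = 2 ^ (c % 2 ^ (m + 1)) := by
    intro c
    conv_lhs => rw [← Nat.div_add_mod c (2 ^ (m + 1)), pow_add, pow_mul, two_pow', one_pow, one_mul]
  rw [key a, key b, h1]

lemma index_pow {m n s : ℕ} (hm : 4 ≤ m) (hs : Odd s) (hn1 : 1 ≤ n) (hn : n < m) (E : ℕ → ℕ)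
    (hE : ∀ i ∈ range (2 ^ n), Ind m (s + i * 2 ^ (m + 1 - n)) (E i))
    (hF : (Nat.fermatNumber m).Prime) :
    ((2 : ZMod (Nat.fermatNumber m)) ^ (2 ^ n * s) - 1) ^ (2 ^ (2 ^ m - m - 1)) = 2 ^ (∑ i ∈ range (2 ^ n), E i) := by
  have hexp : ((Nat.fermatNumber m) - 1) / 2 ^ (m + 1) = 2 ^ (2 ^ m - m - 1) := by
    unfold Nat.fermatNumber
    rw [Nat.add_sub_cancel, Nat.pow_div (by have := lt_pow m hm; omega) (by norm_num)]
    rfl
  have h1 : ∀ i ∈ range (2 ^ n), ((2 : ZMod (Nat.fermatNumber m)) ^ s * (2 ^ (2 ^ (m + 1 - n))) ^ i - 1) ^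
      (2 ^ (2 ^ m - m - 1)) = 2 ^ E i := by
    intro i hi
    have hs' : Odd (s + i * 2 ^ (m + 1 - n)) :=
      hs.add_even (((even_two).pow_of_ne_zero (by omega)).mul_left _)
    have h2 := ((Pool.Agent.Results.MP_37e5fa_nt.MersenneIndex.result m _ hm hs').2 (E i)
      (hE i hi)).1 hF
    rw [hexp, Nat.cast_sub Nat.one_le_two_pow] at h2
    push_cast at h2
    rw [← h2]
    congr 2
    rw [pow_add, mul_comm i, pow_mul]
  have h2 := Finset.prod_congr rfl h1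
  rw [Finset.prod_pow, Finset.prod_pow_eq_pow_sum] at h2
  obtain ⟨r, rfl⟩ : ∃ r, n = r + 1 := ⟨n - 1, by omega⟩
  rw [prod_eta r] at h2
  · rw [← h2]
    have h3 : Even (2 ^ (2 ^ m - m - 1)) := (even_two).pow_of_ne_zero (by
      have := lt_pow m hm; omega)
    rw [← h3.neg_pow, neg_sub, ← pow_mul, mul_comm s]
  · rw [← pow_mul, ← pow_add]
    have : m + 1 - (r + 1) + r = m := by omega
    rw [this, two_pow]

lemma exists_index {m n s : ℕ} (hm : 4 ≤ m) (hs : Odd s) (hn1 : 1 ≤ n) (hn : n < m) :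
    ∃ E : ℕ, Dv (m + 1) (4 * (E : ℚ) - s * Ser m n s) ∧ ((Nat.fermatNumber m).Prime →
      ((2 : ZMod (Nat.fermatNumber m)) ^ (2 ^ n * s) - 1) ^ (2 ^ (2 ^ m - m - 1)) = 2 ^ E) := by
  have h : ∀ i, ∃ E, Ind m (s + i * 2 ^ (m + 1 - n)) E := by
    intro i
    have hs' : Odd (s + i * 2 ^ (m + 1 - n)) :=
      hs.add_even (((even_two).pow_of_ne_zero (by omega)).mul_left _)
    exact (Pool.Agent.Results.MP_37e5fa_nt.MersenneIndex.result m _ hm hs').1
  choose E hE using h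
  exact ⟨∑ i ∈ range (2 ^ n), E i, index_congr hs hn1 hn E fun i _ => hE i,
    index_pow hm hs hn1 hn E fun i _ => hE i⟩

/-- the residue of the index -/
lemma index_formula {m n s E : ℕ} (hm : 4 ≤ m) (hs : Odd s) (hn1 : 1 ≤ n) (hn : n < m)
    (hE : Dv (m + 1) ((E : ℚ) - s * Ser m n s)) (hF : (Nat.fermatNumber m).Prime) :
    ((2 : ZMod (Nat.fermatNumber m)) ^ (2 ^ n * s) - 1) ^ (2 ^ (2 ^ m - m + 1)) = 2 ^ E := by
  obtain ⟨E₀, h1, h2⟩ := exists_index hm hs hn1 hn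
  have h3 := lt_pow m hm
  have h4 : 2 ^ (2 ^ m - m + 1) = 2 ^ (2 ^ m - m - 1) * 4 := by
    have : 2 ^ m - m + 1 = (2 ^ m - m - 1) + 2 := by omega
    rw [this, pow_add]; norm_num
  rw [h4, pow_mul, h2 hF, ← pow_mul]
  apply two_pow_congr
  have h5 : Dv (m + 1) (((E₀ * 4 : ℕ) : ℤ) - (E : ℤ) : ℤ) := by
    have := h1.sub hE
    convert this using 1
    push_cast
    ring
  exact h5.to_int

lemma Ser_head {m n s : ℕ} (hn1 : 1 ≤ n) (hm : n < m) :
    Dv (2 ^ n + 1) (Ser m n s - (sgn m s (2 ^ n) : ℚ) * 2 ^ 2 ^ n) := by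
  have h1 : Icc 1 (2 * m + 4) = insert 1 (Icc 2 (2 * m + 4)) := by
    ext l; simp only [mem_insert, mem_Icc]; omega
  rw [Ser, h1, Finset.sum_insert (by simp)]
  simp only [mul_one, Nat.cast_one, div_one, add_sub_cancel_left]
  refine Dv.sum _ _ fun l hl => ?_
  rw [mem_Icc] at hl
  refine term_mono (by omega) ?_ _
  have h9 : padicValNat 2 l + 1 ≤ l := by
    have := val_le_self l (by omega)
    have := pow_ge (padicValNat 2 l)
    omega
  obtain ⟨c, hc⟩ : ∃ c, l = c + 2 := ⟨l - 2, by omega⟩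
  have h10 : 2 ≤ 2 ^ n := by
    calc 2 = 2 ^ 1 := by norm_num
      _ ≤ 2 ^ n := Nat.pow_le_pow_right (by norm_num) hn1
  rcases Nat.lt_or_ge l 3 with h3 | h3
  · have : l = 2 := by omega
    subst this
    have h11 : padicValNat 2 2 = 1 := by simp
    rw [h11]; omega
  · have h12 : 2 ^ n * l = 2 ^ n + 2 ^ n * (l - 1) := by
      obtain ⟨c, rfl⟩ : ∃ c, l = c + 1 := ⟨l - 1, by omega⟩
      rw [Nat.add_sub_cancel]; ring
    have h13 : 2 * (l - 1) ≤ 2 ^ n * (l - 1) := Nat.mul_le_mul_right _ h10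
    omega

lemma odd_of_dv {a : ℕ} {x : ℤ} (hx : Odd x) {c : ℤ} (h : (2 : ℤ) ^ (a + 1) ∣ c - 2 ^ a * x) :
    ∃ y : ℤ, Odd y ∧ c = 2 ^ a * y := by
  obtain ⟨z, hz⟩ := h
  refine ⟨x + 2 * z, hx.add_even (even_two_mul z), ?_⟩
  rw [pow_succ] at hz
  linear_combination hz

lemma odd_sgn (m s k : ℕ) : Odd (sgn m s k) := by
  unfold sgn
  split_ifs <;> decide

/-- the value of the highest power which is not `1` -/
lemma minus_pow {m n s : ℕ} (hm : 4 ≤ m) (hs : Odd s) (hn1 : 1 ≤ n) (hn : 2 ^ n ≤ m)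
    (hF : (Nat.fermatNumber m).Prime) :
    ((2 : ZMod (Nat.fermatNumber m)) ^ (2 ^ n * s) - 1) ^ (2 ^ (2 ^ m - 2 ^ n + 1)) = -1 := by
  have hnm : n < m := lt_of_lt_of_le Nat.lt_two_pow_self hn
  obtain ⟨E, h1, h2⟩ := exists_index hm hs hn1 hnm
  have h3 := lt_pow m hm
  have h10 : 2 ≤ 2 ^ n := by
    calc 2 = 2 ^ 1 := by norm_num
      _ ≤ 2 ^ n := Nat.pow_le_pow_right (by norm_num) hn1
  have h4 : Dv (2 ^ n + 1) (((4 * E : ℤ) - 2 ^ 2 ^ n * (s * sgn m s (2 ^ n)) : ℤ) : ℚ) := by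
    have := (h1.mono (by omega : 2 ^ n + 1 ≤ m + 1)).add
      ((Ser_head (s := s) hn1 hnm).int_mul s)
    convert this using 1
    push_cast
    ring
  obtain ⟨y, hy, hy2⟩ := odd_of_dv ((Odd.mul (by exact_mod_cast hs) (odd_sgn m s (2 ^ n)))) h4.to_int
  have h5 : ∃ z : ℕ, Odd z ∧ E = 2 ^ (2 ^ n - 2) * z := by
    have h6 : (2 : ℤ) ^ 2 ^ n = 4 * 2 ^ (2 ^ n - 2) := by
      have : 2 ^ n = 2 + (2 ^ n - 2) := by omega
      conv_lhs => rw [this, pow_add]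
      norm_num
    rw [h6] at hy2
    have h7 : (E : ℤ) = 2 ^ (2 ^ n - 2) * y := by linarith
    have h8 : 0 ≤ y := by
      by_contra hneg
      have : (2 : ℤ) ^ (2 ^ n - 2) * y < 0 := mul_neg_of_pos_of_neg (by positivity) (by omega)
      omega
    obtain ⟨z, rfl⟩ := Int.eq_ofNat_of_zero_le h8
    exact ⟨z, by exact_mod_cast hy, by exact_mod_cast h7⟩
  obtain ⟨z, hz, hE⟩ := h5
  have h6 : 2 ^ (2 ^ m - 2 ^ n + 1) = 2 ^ (2 ^ m - m - 1) * 2 ^ (m + 2 - 2 ^ n) := by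
    rw [← pow_add]; congr 1; omega
  rw [h6, pow_mul, h2 hF, hE, ← pow_mul]
  have h7 : 2 ^ (2 ^ n - 2) * z * 2 ^ (m + 2 - 2 ^ n) = 2 ^ m * z := by
    have : 2 ^ m = 2 ^ (2 ^ n - 2) * 2 ^ (m + 2 - 2 ^ n) := by
      rw [← pow_add]; congr 1; omega
    rw [this]; ring
  rw [h7, pow_mul, two_pow, hz.neg_one_pow]

/-- the numbers with `2 ^ n > m` -/
lemma minus_one {m n s : ℕ} (hm : 4 ≤ m) (hs : Odd s) (hn1 : 1 ≤ n) (hn : n < m) (hmn : m < 2 ^ n)
    (hF : (Nat.fermatNumber m).Prime) :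
    ((2 : ZMod (Nat.fermatNumber m)) ^ (2 ^ n * s) - 1) ^ (2 ^ (2 ^ m - m + 1)) = 1 := by
  have h := index_formula (E := 0) hm hs hn1 hn (by
    have h8 : Dv (m + 1) (Ser m n s) := by
      refine Dv.sum _ _ fun l hl => ?_
      rw [mem_Icc] at hl
      have hl0 : l ≠ 0 := by omega
      refine term_mono hl0 ?_ _
      have h9 : padicValNat 2 l + 1 ≤ l := by
        have := val_le_self l hl0
        have := pow_ge (padicValNat 2 l)
        omega
      calc m + 1 + padicValNat 2 l ≤ (m + 1) * (padicValNat 2 l + 1) := by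
            have : (m + 1) * (padicValNat 2 l + 1) = m * padicValNat 2 l +
              (m + 1 + padicValNat 2 l) := by ring
            omega
        _ ≤ 2 ^ n * l := Nat.mul_le_mul hmn h9
    have := (h8.int_mul s).neg
    convert this using 1
    push_cast
    ring) hF
  rw [h, pow_zero]

/-- the numbers `2 ^ s + 1` -/
lemma plus_eq {m n s : ℕ} (hn : n < m) :
    (2 : ZMod (Nat.fermatNumber m)) ^ (2 ^ n * s) + 1 = -(2 ^ (2 ^ n * (s + 2 ^ (m - n))) - 1) := by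
  have h1 : 2 ^ n * (s + 2 ^ (m - n)) = 2 ^ n * s + 2 ^ m := by
    rw [mul_add, ← pow_add, Nat.add_sub_cancel' hn.le]
  rw [h1, pow_add, two_pow]
  ring

lemma plus_pow {m n s e : ℕ} (hn : n < m) (he : e ≠ 0) :
    ((2 : ZMod (Nat.fermatNumber m)) ^ (2 ^ n * s) + 1) ^ (2 ^ e) =
      (2 ^ (2 ^ n * (s + 2 ^ (m - n))) - 1) ^ (2 ^ e) := by
  rw [plus_eq hn, ((even_two).pow_of_ne_zero he).neg_pow]

/-- Pocklington -/
lemma prime_of {m e : ℕ} (a : ZMod (Nat.fermatNumber m)) (h : a ^ (2 ^ e) = -1) (he : 2 ^ m < 2 * (e + 1)) :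
    (Nat.fermatNumber m).Prime := by
  have h3 : 3 ≤ Nat.fermatNumber m := Nat.three_le_fermatNumber m
  set q := (Nat.fermatNumber m).minFac with hq
  have hqp : q.Prime := Nat.minFac_prime (by omega)
  have : Fact q.Prime := ⟨hqp⟩
  have hqd : q ∣ Nat.fermatNumber m := Nat.minFac_dvd _
  set b : ZMod q := ZMod.castHom hqd (ZMod q) a with hb
  have h1 : b ^ (2 ^ e) = -1 := by rw [hb, ← map_pow, h, map_neg, map_one]
  have hq2 : q ≠ 2 := by
    intro h2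
    have h4 : Odd (Nat.fermatNumber m) := Nat.odd_fermatNumber m
    rw [h2] at hqd
    exact (Nat.not_even_iff_odd.mpr h4) (even_iff_two_dvd.mpr hqd)
  have hne : (-1 : ZMod q) ≠ 1 := by
    have : Fact (2 < q) := ⟨lt_of_le_of_ne hqp.two_le (Ne.symm hq2)⟩
    exact ZMod.neg_one_ne_one
  have h5 : orderOf b = 2 ^ (e + 1) := by
    apply orderOf_eq_prime_pow
    · rw [h1]; exact hne
    · rw [pow_succ, pow_mul, h1]; norm_num
  have hb0 : b ≠ 0 := by
    rintro h0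
    rw [h0, zero_pow (by positivity)] at h1
    exact neg_ne_zero.mpr one_ne_zero h1.symm
  have h6 : 2 ^ (e + 1) ∣ q - 1 := by
    rw [← h5]; exact ZMod.orderOf_dvd_card_sub_one hb0
  have h7 : 2 ^ (e + 1) < q := by
    have := Nat.le_of_dvd (by have := hqp.two_le; omega) h6
    omega
  by_contra hF
  have h8 := Nat.minFac_sq_le_self (by omega : 0 < Nat.fermatNumber m) hF
  have h9 : (2 ^ (e + 1)) ^ 2 < q ^ 2 := Nat.pow_lt_pow_left h7 (by norm_num)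
  have h10 : 2 ^ (2 ^ m + 1) ≤ (2 ^ (e + 1)) ^ 2 := by
    rw [← pow_mul]
    exact Nat.pow_le_pow_right (by norm_num) (by omega)
  have h11 : (Nat.fermatNumber m) ≤ 2 ^ (2 ^ m + 1) := by
    unfold Nat.fermatNumber
    rw [pow_succ]
    have : 1 ≤ 2 ^ 2 ^ m := Nat.one_le_two_pow
    omega
  have h12 : q ^ 2 ≤ Nat.fermatNumber m := by rw [hq]; exact h8
  omega

end Pool.Agent.L0h40.MS
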