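import Pool.Agent.L0h40.MS.Fin

/-!
# The index of `F_n` modulo `F_m`
-/

set_option autoImplicit false

namespace Pool.Agent.L0h40.MS

open Finset
open Pool.Agent.Results.MP_37e5fa_nt.MersenneIndex (sgn Ind)

lemma odd_shift {m n : ℕ} (hn : n < m) : Odd (1 + 2 ^ (m - n)) :=
  odd_one.add_even ((even_two).pow_of_ne_zero (by omega))

lemma fermat_sgn {m n l : ℕ} (hn : n < m) (hl : 2 ^ n * l < 2 ^ m) :
    sgn m (1 + 2 ^ (m - n)) (2 ^ n * l) = (-1) ^ l := by
  have h1 := mul_inv_odd m (1 + 2 ^ (m - n)) (odd_shift hn)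
  have h0 : (2 : ZMod (2 ^ (m + 1))) ^ (m + 1) = 0 := by
    exact_mod_cast (ZMod.natCast_self (2 ^ (m + 1)))
  have h2 : (2 : ZMod (2 ^ (m + 1))) ^ n * 2 ^ (m - n) = 2 ^ m := by
    rw [← pow_add, Nat.add_sub_cancel' hn.le]
  have h3 : (2 : ZMod (2 ^ (m + 1))) ^ m * 2 ^ (m - n) = 0 := by
    obtain ⟨c, hc⟩ : ∃ c, m - n = 1 + c := ⟨m - n - 1, by omega⟩
    rw [hc]
    calc (2 : ZMod (2 ^ (m + 1))) ^ m * 2 ^ (1 + c) = 2 ^ (m + 1) * 2 ^ c := by ring
      _ = 0 := by rw [h0, zero_mul]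
  have h4 : (2 : ZMod (2 ^ (m + 1))) ^ m * 2 = 0 := by rw [← pow_succ, h0]
  -- the quotient
  have h5 : ((2 ^ n * l : ℕ) : ZMod (2 ^ (m + 1))) * ((1 + 2 ^ (m - n) : ℕ) : ZMod (2 ^ (m + 1)))⁻¹ =
      ((2 ^ n * l : ℕ) : ZMod (2 ^ (m + 1))) + l * 2 ^ m := by
    set y := ((1 + 2 ^ (m - n) : ℕ) : ZMod (2 ^ (m + 1)))⁻¹
    push_cast at h1 ⊢
    have h6 : ((2 : ZMod (2 ^ (m + 1))) ^ n * l + l * 2 ^ m) * (1 + 2 ^ (m - n)) = 2 ^ n * l := by
      linear_combination (l : ZMod (2 ^ (m + 1))) * h2 + l * h3 + l * h4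
    calc (2 : ZMod (2 ^ (m + 1))) ^ n * l * y =
        ((2 : ZMod (2 ^ (m + 1))) ^ n * l + l * 2 ^ m) * ((1 + 2 ^ (m - n)) * y) := by
          rw [← mul_assoc, h6]
      _ = _ := by rw [h1, mul_one]
  have hv : ((2 ^ n * l : ℕ) : ZMod (2 ^ (m + 1))).val = 2 ^ n * l := by
    rw [ZMod.val_natCast, Nat.mod_eq_of_lt]
    exact hl.trans (Nat.pow_lt_pow_right (by norm_num) (by omega))
  rcases Nat.even_or_odd l with he | ho
  · obtain ⟨c, hc⟩ := he
    have h6 : (l : ZMod (2 ^ (m + 1))) * 2 ^ m = 0 := by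
      rw [hc]; push_cast
      linear_combination (c : ZMod (2 ^ (m + 1))) * h4
    rw [h6, add_zero] at h5
    unfold sgn
    rw [h5, hv, if_pos hl, Even.neg_one_pow ⟨c, hc⟩]
  · have h6 : (l : ZMod (2 ^ (m + 1))) * 2 ^ m = 2 ^ m := by
      rw [mul_comm]; exact two_pow_mul_odd m l ho
    rw [h6] at h5
    have h7 : sgn m (1 + 2 ^ (m - n)) (2 ^ n * l) = -sgn m 1 (2 ^ n * l) := by
      apply sgn_flip_of
      rw [h5]
      simp
    rw [h7, ho.neg_one_pow]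
    unfold sgn
    have h8 : (1 : ZMod (2 ^ (m + 1)))⁻¹ = 1 := by simp
    rw [Nat.cast_one, h8, mul_one, hv, if_pos hl]

/-- the truncated logarithm of `F_n` -/
noncomputable def Lg (m n : ℕ) : ℚ :=
  ∑ l ∈ Icc 1 (2 * m + 4), (-1 : ℚ) ^ (l + 1) * 2 ^ (2 ^ n * l) / l

lemma Ser_fermat {m n : ℕ} (hm : 4 ≤ m) (hn : n < m) :
    Dv (m + 1) (((1 + 2 ^ (m - n) : ℕ) : ℚ) * Ser m n (1 + 2 ^ (m - n)) + Lg m n) := by
  have h3 := lt_pow m hm
  have h1 : Dv (m + 1) (Ser m n (1 + 2 ^ (m - n)) + Lg m n) := by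
    rw [Ser, Lg, ← Finset.sum_add_distrib]
    refine Dv.sum _ _ fun l hl => ?_
    rw [mem_Icc] at hl
    have hl0 : l ≠ 0 := by omega
    by_cases h : 2 ^ n * l < 2 ^ m
    · rw [fermat_sgn hn h]
      have : (((-1 : ℤ) ^ l : ℤ) : ℚ) * (2 ^ (2 ^ n * l) / l) +
          (-1) ^ (l + 1) * 2 ^ (2 ^ n * l) / l = 0 := by
        push_cast
        rw [pow_succ]
        ring
      rw [this]
      exact Dv.zero _
    · have h7 : padicValNat 2 l ≤ m + 2 :=
        val_small hl0 (lt_of_le_of_lt hl.2 (two_mul_add_lt m (by omega)))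
      have h8 : m + 1 + padicValNat 2 l ≤ 2 ^ n * l := by omega
      refine (term_mono hl0 h8 _).add ?_
      have := term_mono hl0 h8 ((-1) ^ (l + 1))
      push_cast at this
      rw [mul_div_assoc]
      exact this
  have h2 : Dv (m + 1) ((2 : ℚ) ^ (m - n) * Ser m n (1 + 2 ^ (m - n))) := by
    have h8 : Dv (n + 1) (Ser m n (1 + 2 ^ (m - n))) := by
      refine Dv.sum _ _ fun l hl => ?_
      rw [mem_Icc] at hl
      have hl0 : l ≠ 0 := by omega
      refine term_mono hl0 ?_ _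
      have h9 : padicValNat 2 l + 1 ≤ l := by
        have := val_le_self l hl0
        have := pow_ge (padicValNat 2 l)
        omega
      have h10 : n + 1 ≤ 2 ^ n := pow_ge n
      calc n + 1 + padicValNat 2 l ≤ (n + 1) * (padicValNat 2 l + 1) := by
            have : (n + 1) * (padicValNat 2 l + 1) = n * padicValNat 2 l +
              (n + 1 + padicValNat 2 l) := by ring
            omega
        _ ≤ 2 ^ n * l := Nat.mul_le_mul h10 h9
    have h9 : Dv (m - n) ((2 : ℚ) ^ (m - n)) := by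
      have := Dv.of_int (M := m - n) (a := 2 ^ (m - n)) (dvd_refl _)
      push_cast at this
      exact this
    have := h9.mul h8
    have e : m - n + (n + 1) = m + 1 := by omega
    rwa [e] at this
  have := h1.add h2
  convert this using 1
  push_cast
  ring

lemma fermat_pow {m n E : ℕ} (hm : 4 ≤ m) (hn1 : 1 ≤ n) (hn : n < m)
    (hE : Dv (m + 1) ((E : ℚ) + Lg m n)) (hF : (Nat.fermatNumber m).Prime) :
    ((Nat.fermatNumber n : ℕ) : ZMod (Nat.fermatNumber m)) ^ (2 ^ (2 ^ m - m + 1)) = 2 ^ E := by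
  have h1 := index_formula (E := E) hm (odd_shift hn) hn1 hn (by
    have := hE.sub (Ser_fermat hm hn)
    convert this using 1
    ring) hF
  have h3 := lt_pow m hm
  have h2 := plus_pow (m := m) (n := n) (s := 1) (e := 2 ^ m - m + 1) hn (by omega)
  rw [mul_one] at h2
  have h4 : ((Nat.fermatNumber n : ℕ) : ZMod (Nat.fermatNumber m)) = 2 ^ 2 ^ n + 1 := by
    unfold Nat.fermatNumber; push_cast; rfl
  rw [h4, h2, h1]

/-- residues exist -/
lemma exists_res (M : ℕ) (q : ℚ) (h : Dv 0 q) : ∃ E : ℕ, Dv M ((E : ℚ) - q) := by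
  obtain ⟨d, n, hd, h1⟩ := h
  have hcop : IsCoprime d ((2 : ℤ) ^ M) := by
    apply IsCoprime.pow_right
    rw [Int.isCoprime_iff_gcd_eq_one, Int.gcd_comm]
    rcases hd with ⟨c, rfl⟩
    have : Int.gcd 2 (2 * c + 1) = Int.gcd 2 1 := by
      rw [add_comm]
      simp
    rw [this]
    rfl
  obtain ⟨u, v, huv⟩ := hcop
  -- u d + v 2^M = 1
  refine ⟨((n * u) % 2 ^ M).toNat, d, (v * (-n) - d * ((n * u) / 2 ^ M)), hd, ?_⟩
  have h2 : (((n * u) % 2 ^ M).toNat : ℤ) = (n * u) % 2 ^ M :=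
    Int.toNat_of_nonneg (Int.emod_nonneg _ (by positivity))
  have h3 : (((n * u) % 2 ^ M).toNat : ℚ) = n * u - 2 ^ M * ((n * u / 2 ^ M : ℤ) : ℚ) := by
    have h4 : (((n * u) % 2 ^ M).toNat : ℤ) = n * u - 2 ^ M * (n * u / 2 ^ M) := by
      rw [h2, Int.emod_def]
    exact_mod_cast h4
  have h5 : (u : ℚ) * d + v * 2 ^ M = 1 := by exact_mod_cast huv
  rw [h3]
  push_cast
  rw [mul_sub, h1]
  linear_combination (n : ℚ) * h5

lemma Ser_int (m n s : ℕ) : Dv 0 (Ser m n s) := by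
  refine Dv.sum _ _ fun l hl => ?_
  rw [mem_Icc] at hl
  have hl0 : l ≠ 0 := by omega
  refine term_mono hl0 ?_ _
  have h9 : padicValNat 2 l + 1 ≤ l := by
    have := val_le_self l hl0
    have := pow_ge (padicValNat 2 l)
    omega
  calc 0 + padicValNat 2 l ≤ 1 * l := by omega
    _ ≤ 2 ^ n * l := Nat.mul_le_mul_right _ Nat.one_le_two_pow

lemma Lg_int (m n : ℕ) : Dv 0 (Lg m n) := by
  refine Dv.sum _ _ fun l hl => ?_
  rw [mem_Icc] at hl
  have hl0 : l ≠ 0 := by omega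
  have h9 : padicValNat 2 l + 1 ≤ l := by
    have := val_le_self l hl0
    have := pow_ge (padicValNat 2 l)
    omega
  have := term_mono (n := n) (M := 0) hl0 (by
    calc 0 + padicValNat 2 l ≤ 1 * l := by omega
      _ ≤ 2 ^ n * l := Nat.mul_le_mul_right _ Nat.one_le_two_pow) ((-1) ^ (l + 1))
  push_cast at this
  rw [mul_div_assoc]
  exact this

end Pool.Agent.L0h40.MS
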