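import Pool.Agent.L0h40.MS.Sgn

/-!
# The index of `2 ^ s - 1`, `s` even, modulo a Fermat prime
-/

set_option autoImplicit false

namespace Pool.Agent.L0h40.MS

open Finset
open Pool.Agent.Results.MP_37e5fa_nt.MersenneIndex (sgn Ind)

/-- the series for the index of `2 ^ (2 ^ n s) - 1` -/
noncomputable def Ser (m n s : ℕ) : ℚ :=
  ∑ l ∈ Icc 1 (2 * m + 4), (sgn m s (2 ^ n * l) : ℚ) * (2 ^ (2 ^ n * l) / l)

lemma exists_odd_decomp (k : ℕ) (hk : k ≠ 0) : ∃ j k' : ℕ, Odd k' ∧ k = 2 ^ j * k' := by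
  obtain ⟨j, k', h1, h2⟩ := Nat.exists_eq_two_pow_mul_odd hk
  exact ⟨j, k', h1, h2⟩

lemma term_mono {n l M : ℕ} (hl : l ≠ 0) (h : M + padicValNat 2 l ≤ 2 ^ n * l) (c : ℤ) :
    Dv M ((c : ℚ) * (2 ^ (2 ^ n * l) / l)) :=
  Dv.int_mul c (Dv.pow_div hl h)

lemma val_small {l a : ℕ} (hl : l ≠ 0) (h : l < 2 ^ (a + 1)) : padicValNat 2 l ≤ a := by
  by_contra hne
  have h1 : 2 ^ (a + 1) ≤ 2 ^ padicValNat 2 l := Nat.pow_le_pow_right (by norm_num) (by omega)
  have h2 := val_le_self l hl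
  omega

lemma two_mul_add_lt (m : ℕ) (hm : 1 ≤ m) : 2 * m + 4 < 2 ^ (m + 3) := by
  have : m < 2 ^ m := Nat.lt_two_pow_self
  have h8 : 2 ^ (m + 3) = 8 * 2 ^ m := by ring
  omega

/-- the sum of the terms of the series with index divisible by `2 ^ n` -/
lemma series_split {m n s : ℕ} (hm : 1 ≤ m) :
    Dv (m + 1) (∑ k ∈ (Icc 1 (2 * m + 4)).filter (fun k => 2 ^ n ∣ k),
      (2 ^ n : ℚ) * ((sgn m s k : ℚ) * (2 ^ k / k)) - Ser m n s) := by
  classical
  have hinj : Set.InjOn (fun l : ℕ => 2 ^ n * l) (Icc 1 ((2 * m + 4) / 2 ^ n) : Set ℕ) := by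
    intro a _ b _ hab
    exact Nat.eq_of_mul_eq_mul_left (by positivity) hab
  have h1 : (Icc 1 (2 * m + 4)).filter (fun k => 2 ^ n ∣ k) =
      (Icc 1 ((2 * m + 4) / 2 ^ n)).image (fun l => 2 ^ n * l) := by
    ext k
    simp only [mem_filter, mem_Icc, mem_image]
    constructor
    · rintro ⟨⟨h1, h2⟩, l, rfl⟩
      refine ⟨l, ⟨?_, ?_⟩, rfl⟩
      · rcases Nat.eq_zero_or_pos l with h | h
        · subst h; simp at h1
        · exact h
      · rw [Nat.le_div_iff_mul_le (by positivity), mul_comm]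
        exact h2
    · rintro ⟨l, ⟨h1, h2⟩, rfl⟩
      refine ⟨⟨Nat.mul_pos (by positivity) h1, ?_⟩, Dvd.intro _ rfl⟩
      rw [Nat.le_div_iff_mul_le (by positivity), mul_comm] at h2
      exact h2
  rw [h1, Finset.sum_image hinj]
  have h2 : ∀ l ∈ Icc 1 ((2 * m + 4) / 2 ^ n),
      (2 ^ n : ℚ) * ((sgn m s (2 ^ n * l) : ℚ) * (2 ^ (2 ^ n * l) / ((2 ^ n * l : ℕ) : ℚ))) =
      (sgn m s (2 ^ n * l) : ℚ) * (2 ^ (2 ^ n * l) / l) := by
    intro l hl
    rw [mem_Icc] at hl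
    have hl0 : (l : ℚ) ≠ 0 := by
      have : l ≠ 0 := by omega
      exact_mod_cast this
    push_cast
    field_simp
  rw [Finset.sum_congr rfl h2, Ser]
  have h3 : (2 * m + 4) / 2 ^ n ≤ 2 * m + 4 := Nat.div_le_self _ _
  have h4 : Icc 1 (2 * m + 4) = Icc 1 ((2 * m + 4) / 2 ^ n) ∪ Ioc ((2 * m + 4) / 2 ^ n) (2 * m + 4) := by
    ext l
    simp only [mem_union, mem_Icc, mem_Ioc]
    generalize (2 * m + 4) / 2 ^ n = q at h3 ⊢
    omega
  have h5 : Disjoint (Icc 1 ((2 * m + 4) / 2 ^ n)) (Ioc ((2 * m + 4) / 2 ^ n) (2 * m + 4)) := by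
    rw [Finset.disjoint_left]
    intro l h1 h2
    simp only [mem_Icc, mem_Ioc] at h1 h2
    omega
  rw [h4, Finset.sum_union h5, sub_add_cancel_left]
  refine Dv.neg (Dv.sum _ _ fun l hl => ?_)
  rw [mem_Ioc] at hl
  have hl0 : l ≠ 0 := by
    rintro rfl
    exact absurd hl.1 (Nat.not_lt_zero _)
  have h6 : 2 * m + 4 < 2 ^ n * l := by
    have := (Nat.div_lt_iff_lt_mul (show 0 < 2 ^ n by positivity)).mp hl.1
    rw [mul_comm (2 ^ n) l]
    exact this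
  have h7 : padicValNat 2 l ≤ m + 2 := val_small hl0 (lt_of_le_of_lt hl.2 (two_mul_add_lt m hm))
  exact term_mono hl0 (by omega) _

lemma pow_ge (n : ℕ) : n + 1 ≤ 2 ^ n := Nat.lt_two_pow_self

/-- The sum of the indices. -/
lemma index_congr {m n s : ℕ} (hs : Odd s) (hn1 : 1 ≤ n) (hn : n < m) (E : ℕ → ℕ)
    (hE : ∀ i ∈ range (2 ^ n), Ind m (s + i * 2 ^ (m + 1 - n)) (E i)) :
    Dv (m + 1) (4 * ((∑ i ∈ range (2 ^ n), E i : ℕ) : ℚ) - s * Ser m n s) := by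
  classical
  have h1 : Dv (m + 3) (∑ i ∈ range (2 ^ n), (4 * (E i : ℚ) -
      ((s + i * 2 ^ (m + 1 - n) : ℕ) : ℚ) * ∑ k ∈ Icc 1 (2 * m + 4),
        (sgn m (s + i * 2 ^ (m + 1 - n)) k : ℚ) * 2 ^ k / k)) := by
    refine Dv.sum _ _ fun i hi => ?_
    obtain ⟨d, c, hd, h⟩ := hE i hi
    exact ⟨d, c, hd, h⟩
  have h2 : (∑ i ∈ range (2 ^ n), (4 * (E i : ℚ) -
      ((s + i * 2 ^ (m + 1 - n) : ℕ) : ℚ) * ∑ k ∈ Icc 1 (2 * m + 4),
        (sgn m (s + i * 2 ^ (m + 1 - n)) k : ℚ) * 2 ^ k / k)) =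
      4 * ((∑ i ∈ range (2 ^ n), E i : ℕ) : ℚ) -
        ∑ k ∈ Icc 1 (2 * m + 4), (G m n s k : ℚ) * (2 ^ k / k) := by
    rw [Finset.sum_sub_distrib]
    congr 1
    · push_cast
      rw [Finset.mul_sum]
    · unfold G
      simp only [Finset.mul_sum]
      rw [Finset.sum_comm]
      refine Finset.sum_congr rfl fun k _ => ?_
      push_cast
      rw [Finset.sum_mul]
      refine Finset.sum_congr rfl fun i _ => ?_
      ring
  rw [h2] at h1
  have h3 : ∑ k ∈ Icc 1 (2 * m + 4), (G m n s k : ℚ) * (2 ^ k / k) =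
      ∑ k ∈ (Icc 1 (2 * m + 4)).filter (fun k => 2 ^ n ∣ k), (G m n s k : ℚ) * (2 ^ k / k) +
      ∑ k ∈ (Icc 1 (2 * m + 4)).filter (fun k => ¬ 2 ^ n ∣ k), (G m n s k : ℚ) * (2 ^ k / k) :=
    (Finset.sum_filter_add_sum_filter_not _ _ _).symm
  have h4 : Dv (m + 1) (∑ k ∈ (Icc 1 (2 * m + 4)).filter (fun k => ¬ 2 ^ n ∣ k),
      (G m n s k : ℚ) * (2 ^ k / k)) := by
    refine Dv.sum _ _ fun k hk => ?_
    rw [mem_filter, mem_Icc] at hk
    have hk0 : k ≠ 0 := by omega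
    obtain ⟨j, k', hk', rfl⟩ := exists_odd_decomp k hk0
    have hj : j < n := by
      by_contra hne
      exact hk.2 ((pow_dvd_pow 2 (not_lt.mp hne)).trans (Dvd.intro _ rfl))
    have h5 : Dv m ((G m n s (2 ^ j * k') : ℤ) : ℚ) := Dv.of_int (G_low hs hn hj hk')
    have h6 : Dv 1 ((2 : ℚ) ^ (2 ^ j * k') / ((2 ^ j * k' : ℕ) : ℚ)) := by
      refine Dv.pow_div hk0 ?_
      have h7 : padicValNat 2 (2 ^ j * k') = j := by
        have hk0' : k' ≠ 0 := by rintro rfl; simp at hk0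
        rw [padicValNat.mul (by positivity) hk0', padicValNat.prime_pow,
          padicValNat.eq_zero_of_not_dvd (by
            rw [← even_iff_two_dvd, Nat.not_even_iff_odd]; exact hk'), add_zero]
      rw [h7]
      have h8 : 1 ≤ k' := hk'.pos
      calc 1 + j ≤ 2 ^ j := by have := pow_ge j; omega
        _ ≤ 2 ^ j * k' := Nat.le_mul_of_pos_right _ h8
    exact h5.mul h6
  have h5 : ∑ k ∈ (Icc 1 (2 * m + 4)).filter (fun k => 2 ^ n ∣ k), (G m n s k : ℚ) * (2 ^ k / k) =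
      ((s : ℚ) + 2 ^ (m - n) * (2 ^ n - 1)) *
        ∑ k ∈ (Icc 1 (2 * m + 4)).filter (fun k => 2 ^ n ∣ k),
          (2 ^ n : ℚ) * ((sgn m s k : ℚ) * (2 ^ k / k)) := by
    rw [Finset.mul_sum]
    refine Finset.sum_congr rfl fun k hk => ?_
    rw [mem_filter] at hk
    obtain ⟨l, rfl⟩ := hk.2
    rw [G_high hs hn]
    push_cast
    ring
  have h6 : Dv (m + 1) (((s : ℚ) + 2 ^ (m - n) * (2 ^ n - 1)) *
      (∑ k ∈ (Icc 1 (2 * m + 4)).filter (fun k => 2 ^ n ∣ k),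
          (2 ^ n : ℚ) * ((sgn m s k : ℚ) * (2 ^ k / k)) - Ser m n s)) := by
    have := Dv.int_mul ((s : ℤ) + 2 ^ (m - n) * (2 ^ n - 1)) (series_split (n := n) (s := s) (by omega : 1 ≤ m))
    push_cast at this
    exact this
  have h7 : Dv (m + 1) ((2 : ℚ) ^ (m - n) * (2 ^ n - 1) * Ser m n s) := by
    have h8 : Dv (n + 1) (Ser m n s) := by
      refine Dv.sum _ _ fun l hl => ?_
      rw [mem_Icc] at hl
      have hl0 : l ≠ 0 := by omega
      refine term_mono hl0 ?_ _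
      have h9 : padicValNat 2 l + 1 ≤ l := by
        have := val_le_self l hl0
        have := pow_ge (padicValNat 2 l)
        omega
      have h10 : n + 1 ≤ 2 ^ n := pow_ge n
      calc n + 1 + padicValNat 2 l ≤ (n + 1) * (padicValNat 2 l + 1) := by
            have : (n + 1) * (padicValNat 2 l + 1) = n * padicValNat 2 l +
              (n + 1 + padicValNat 2 l) := by ring
            omega
        _ ≤ 2 ^ n * l := Nat.mul_le_mul h10 h9
    have h9 : Dv (m - n) ((2 : ℚ) ^ (m - n)) := by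
      have := Dv.of_int (M := m - n) (a := 2 ^ (m - n)) (dvd_refl _)
      push_cast at this
      exact this
    have h10 := (h9.mul h8).int_mul (2 ^ n - 1)
    have e : m - n + (n + 1) = m + 1 := by omega
    rw [e] at h10
    push_cast at h10
    convert h10 using 1
    ring
  have h8 := ((h1.mono (by omega : m + 1 ≤ m + 3)).add h4).add (h6.add h7)
  convert h8 using 1
  rw [h3, h5]
  ring

end Pool.Agent.L0h40.MS
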