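import Pool.Agent.L0h40.MS.Dv
import Pool.Agent.Results.MP_37e5fa_nt.MersenneIndex

/-!
# The signs in the index formula, and the sum over a coset
-/

set_option autoImplicit false

namespace Pool.Agent.L0h40.MS

open Finset
open Pool.Agent.Results.MP_37e5fa_nt.MersenneIndex (sgn Ind)

lemma two_pow_mul_odd (m a : ℕ) (ha : Odd a) :
    (2 : ZMod (2 ^ (m + 1))) ^ m * (a : ZMod (2 ^ (m + 1))) = 2 ^ m := by
  obtain ⟨b, rfl⟩ := ha
  have h : ((2 ^ (m + 1) : ℕ) : ZMod (2 ^ (m + 1))) = 0 := ZMod.natCast_self _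
  push_cast at h ⊢
  linear_combination (b : ZMod (2 ^ (m + 1))) * h

lemma val_odd_of_mul {m : ℕ} {x y : ZMod (2 ^ (m + 1))} (h : x * y = 1) : Odd y.val := by
  by_contra hne
  rw [Nat.not_odd_iff_even] at hne
  have h1 : ZMod.castHom (show 2 ∣ 2 ^ (m + 1) from dvd_pow_self 2 (Nat.succ_ne_zero m)) (ZMod 2) y = 0 := by
    rw [← ZMod.natCast_zmod_val y, map_natCast, ZMod.natCast_eq_zero_iff]
    exact hne.two_dvd
  have h2 := congrArg (ZMod.castHom (show 2 ∣ 2 ^ (m + 1) from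
    dvd_pow_self 2 (Nat.succ_ne_zero m)) (ZMod 2)) h
  rw [map_mul, h1, mul_zero, map_one] at h2
  exact zero_ne_one h2

lemma two_pow_mul_unit {m : ℕ} {x y : ZMod (2 ^ (m + 1))} (h : x * y = 1) :
    (2 : ZMod (2 ^ (m + 1))) ^ m * y = 2 ^ m := by
  have := two_pow_mul_odd m y.val (val_odd_of_mul h)
  rwa [ZMod.natCast_zmod_val] at this

lemma mul_inv_odd (m s : ℕ) (hs : Odd s) :
    (s : ZMod (2 ^ (m + 1))) * (s : ZMod (2 ^ (m + 1)))⁻¹ = 1 :=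
  ZMod.coe_mul_inv_eq_one s (hs.coprime_two_right.pow_right _)

lemma sgn_flip_of {m s s' k k' : ℕ}
    (h : (k : ZMod (2 ^ (m + 1))) * (s : ZMod (2 ^ (m + 1)))⁻¹ =
      (k' : ZMod (2 ^ (m + 1))) * (s' : ZMod (2 ^ (m + 1)))⁻¹ + 2 ^ m) :
    sgn m s k = -sgn m s' k' := by
  unfold sgn
  rw [h]
  set x := (k' : ZMod (2 ^ (m + 1))) * (s' : ZMod (2 ^ (m + 1)))⁻¹
  have h1 : ((2 : ZMod (2 ^ (m + 1))) ^ m).val = 2 ^ m := by
    have : ((2 : ZMod (2 ^ (m + 1))) ^ m) = ((2 ^ m : ℕ) : ZMod (2 ^ (m + 1))) := by push_cast; rfl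
    rw [this, ZMod.val_natCast, Nat.mod_eq_of_lt (Nat.pow_lt_pow_right (by norm_num) (by omega))]
  have h2 : (x + 2 ^ m).val = (x.val + 2 ^ m) % 2 ^ (m + 1) := by
    rw [ZMod.val_add, h1]
  have h3 : x.val < 2 ^ (m + 1) := ZMod.val_lt x
  have h4 : 2 ^ (m + 1) = 2 ^ m + 2 ^ m := by ring
  rw [h2]
  by_cases hx : x.val < 2 ^ m
  · rw [Nat.mod_eq_of_lt (by omega), if_neg (by omega), if_pos hx]
  · rw [Nat.mod_eq_sub_mod (by omega), Nat.mod_eq_of_lt (by omega), if_pos (by omega), if_neg hx,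
      neg_neg]

lemma sgn_flip {m s j k' : ℕ} (hs : Odd s) (hj : j < m) (hk : Odd k') :
    sgn m (s + 2 ^ (m - j)) (2 ^ j * k') = -sgn m s (2 ^ j * k') := by
  apply sgn_flip_of
  have hs' : Odd (s + 2 ^ (m - j)) :=
    hs.add_even ((even_two).pow_of_ne_zero (by omega))
  have h1 := mul_inv_odd m s hs
  have h2 := mul_inv_odd m (s + 2 ^ (m - j)) hs'
  set y := (s : ZMod (2 ^ (m + 1)))⁻¹
  set z := ((s + 2 ^ (m - j) : ℕ) : ZMod (2 ^ (m + 1)))⁻¹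
  have h3 : (2 : ZMod (2 ^ (m + 1))) ^ j * 2 ^ (m - j) = 2 ^ m := by
    rw [← pow_add, Nat.add_sub_cancel' hj.le]
  have h4 := two_pow_mul_odd m k' hk
  have h5 := two_pow_mul_unit h1
  have h6 := two_pow_mul_unit h2
  have h7 : (2 : ZMod (2 ^ (m + 1))) ^ m * k' * y * z = 2 ^ m := by rw [h4, h5, h6]
  have h8 : (2 : ZMod (2 ^ (m + 1))) ^ m + 2 ^ m = 0 := by
    have h : ((2 ^ (m + 1) : ℕ) : ZMod (2 ^ (m + 1))) = 0 := ZMod.natCast_self _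
    push_cast at h
    rw [← h]; ring
  push_cast at h2 ⊢
  linear_combination (-(2 : ZMod (2 ^ (m + 1))) ^ j * k' * z) * h1 +
    (2 ^ j * k' * y) * h2 - k' * y * z * h3 - h7 - h8

lemma sgn_same {m n s l i : ℕ} (hs : Odd s) (hn : n < m) :
    sgn m (s + i * 2 ^ (m + 1 - n)) (2 ^ n * l) = sgn m s (2 ^ n * l) := by
  unfold sgn
  have hs' : Odd (s + i * 2 ^ (m + 1 - n)) :=
    hs.add_even (((even_two).pow_of_ne_zero (by omega)).mul_left _)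
  have h1 := mul_inv_odd m s hs
  have h2 := mul_inv_odd m (s + i * 2 ^ (m + 1 - n)) hs'
  have h3 : (2 : ZMod (2 ^ (m + 1))) ^ n * 2 ^ (m + 1 - n) = 0 := by
    rw [← pow_add, Nat.add_sub_cancel' (by omega)]
    exact_mod_cast (ZMod.natCast_self (2 ^ (m + 1)))
  have h4 : ((2 ^ n * l : ℕ) : ZMod (2 ^ (m + 1))) *
      ((s + i * 2 ^ (m + 1 - n) : ℕ) : ZMod (2 ^ (m + 1)))⁻¹ =
      ((2 ^ n * l : ℕ) : ZMod (2 ^ (m + 1))) * (s : ZMod (2 ^ (m + 1)))⁻¹ := by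
    set y := (s : ZMod (2 ^ (m + 1)))⁻¹
    set z := ((s + i * 2 ^ (m + 1 - n) : ℕ) : ZMod (2 ^ (m + 1)))⁻¹
    push_cast at h2 ⊢
    linear_combination (-(2 : ZMod (2 ^ (m + 1))) ^ n * l * z) * h1 +
      (2 ^ n * l * y) * h2 - l * i * y * z * h3
  rw [h4]

/-- the sum over a coset -/
def G (m n s k : ℕ) : ℤ :=
  ∑ i ∈ range (2 ^ n), ((s + i * 2 ^ (m + 1 - n) : ℕ) : ℤ) * sgn m (s + i * 2 ^ (m + 1 - n)) k

lemma G_low {m n s j k' : ℕ} (hs : Odd s) (hn : n < m) (hj : j < n) (hk : Odd k') :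
    (2 : ℤ) ^ m ∣ G m n s (2 ^ j * k') := by
  have h := alt_sum (2 ^ (n - 1 - j)) (s : ℤ) (2 ^ (m + 1 - n))
    (fun i => sgn m (s + i * 2 ^ (m + 1 - n)) (2 ^ j * k')) (by
      intro i
      have e : s + (i + 2 ^ (n - 1 - j)) * 2 ^ (m + 1 - n) =
          (s + i * 2 ^ (m + 1 - n)) + 2 ^ (m - j) := by
        have : 2 ^ (n - 1 - j) * 2 ^ (m + 1 - n) = 2 ^ (m - j) := by
          rw [← pow_add]; congr 1; omega
        rw [add_mul, this, add_assoc]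
      have hs' : Odd (s + i * 2 ^ (m + 1 - n)) :=
        hs.add_even (((even_two).pow_of_ne_zero (by omega)).mul_left _)
      rw [e, sgn_flip hs' (by omega) hk]) (2 ^ j)
  have e1 : 2 ^ (n - 1 - j) * (2 * 2 ^ j) = 2 ^ n := by
    rw [← pow_succ', ← pow_add]; congr 1; omega
  rw [e1] at h
  have e2 : (((2 ^ j : ℕ) : ℤ) * ((2 ^ (n - 1 - j) : ℕ) : ℤ) * 2 ^ (m + 1 - n)) = 2 ^ m := by
    push_cast
    rw [← pow_add, ← pow_add]; congr 1; omega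
  unfold G
  push_cast at h e2 ⊢
  rw [h, e2]
  exact Dvd.dvd.mul_right (dvd_neg.mpr (dvd_refl _)) _

lemma sum_s (m n s : ℕ) (hn : n < m) :
    ∑ i ∈ range (2 ^ n), ((s + i * 2 ^ (m + 1 - n) : ℕ) : ℤ) =
      2 ^ n * (s + 2 ^ (m - n) * (2 ^ n - 1)) := by
  push_cast
  rw [Finset.sum_add_distrib, Finset.sum_const, Finset.card_range, ← Finset.sum_mul]
  have h1 : (∑ i ∈ range (2 ^ n), (i : ℤ)) * 2 = 2 ^ n * (2 ^ n - 1) := by
    have := Finset.sum_range_id_mul_two (2 ^ n)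
    have h2 : ((∑ i ∈ range (2 ^ n), i : ℕ) : ℤ) * 2 = 2 ^ n * ((2 ^ n - 1 : ℕ) : ℤ) := by
      exact_mod_cast this
    rw [Nat.cast_sub Nat.one_le_two_pow] at h2
    push_cast at h2
    exact h2
  have h3 : (2 : ℤ) ^ (m + 1 - n) = 2 * 2 ^ (m - n) := by
    rw [← pow_succ']; congr 1; omega
  rw [h3]
  linear_combination ((2 : ℤ) ^ (m - n)) * h1

lemma G_high {m n s l : ℕ} (hs : Odd s) (hn : n < m) :
    G m n s (2 ^ n * l) = sgn m s (2 ^ n * l) * (2 ^ n * (s + 2 ^ (m - n) * (2 ^ n - 1))) := by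
  unfold G
  rw [← sum_s m n s hn, Finset.mul_sum]
  refine Finset.sum_congr rfl fun i _ => ?_
  rw [sgn_same hs hn]
  ring

end Pool.Agent.L0h40.MS
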